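import Mathlib

set_option autoImplicit false

/-!
# Quaternionic hyperbolic plane and the group `Sp(2,1)` over the Hurwitz integers

Points are pairs `(z, ζ)` of real quaternions; the quaternionic hyperbolic plane is the Siegel
domain `2 Re z + |ζ|² < 0`.
-/

namespace Pool.Agent.Helper19.QcP

open MeasureTheory

/-- the real quaternions `H` -/
abbrev Q := Quaternion ℝ

/-- the space `H³` -/
abbrev V := Q × Q × Q

/-- ambient space `H²` of the Siegel domain -/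
abbrev Pt := Q × Q

/-- the Hermitian form `x₁ y₃* + x₂ y₂* + x₃ y₁*` of signature `(2,1)` -/
noncomputable def herm (x y : V) : Q :=
  x.1 * star y.2.2 + x.2.1 * star y.2.1 + x.2.2 * star y.1

/-- the height `-(2 Re z + |ζ|²)` -/
noncomputable def hgt (p : Pt) : ℝ := -(2 * p.1.re + ‖p.2‖ ^ 2)

/-- the Siegel domain (quaternionic hyperbolic plane) -/
def SD : Set Pt := {p | 0 < hgt p}

/-- the action of a bijection of `H³` on points: `(z, ζ, 1)` is mapped to `(x₁, x₂, x₃)`, and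
`(z, ζ)` to `(x₃⁻¹ x₁, x₃⁻¹ x₂)` -/
noncomputable def act (g : Equiv.Perm V) (p : Pt) : Pt :=
  ((g (p.1, p.2, 1)).2.2⁻¹ * (g (p.1, p.2, 1)).1, (g (p.1, p.2, 1)).2.2⁻¹ * (g (p.1, p.2, 1)).2.1)

/-- the Hurwitz integers `O`: all combinations `n (1+i+j+k)/2 + b i + c j + d k` with integral
coefficients -/
def Hur : Set Q := {q | ∃ n b c d : ℤ, q = ⟨(n : ℝ) / 2, n / 2 + b, n / 2 + c, n / 2 + d⟩}

/-- `g` preserves the Hermitian form (so it is linear over `H`) and the lattice `O³` -/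
def IsAut (g : Equiv.Perm V) : Prop :=
  (∀ x y, herm (g x) (g y) = herm x y) ∧
    ∀ x, (g x ∈ Hur ×ˢ Hur ×ˢ Hur ↔ x ∈ Hur ×ˢ Hur ×ˢ Hur)

/-- the unitary group of the Hermitian lattice `O³` -/
def UO : Subgroup (Equiv.Perm V) where
  carrier := {g | IsAut g}
  mul_mem' := by
    rintro g h ⟨hg1, hg2⟩ ⟨hh1, hh2⟩
    refine ⟨fun x y => ?_, fun x => ?_⟩
    · rw [Equiv.Perm.mul_apply, Equiv.Perm.mul_apply, hg1, hh1]
    · rw [Equiv.Perm.mul_apply, hg2, hh2]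
  one_mem' := ⟨fun _ _ => rfl, fun _ => Iff.rfl⟩
  inv_mem' := by
    rintro g ⟨hg1, hg2⟩
    have key : ∀ x, g (g⁻¹ x) = x := fun x => g.apply_symm_apply x
    refine ⟨fun x y => ?_, fun x => ?_⟩
    · rw [← hg1 (g⁻¹ x) (g⁻¹ y), key, key]
    · rw [← hg2 (g⁻¹ x), key]

/-- the transformation `(x₁, x₂, x₃) ↦ (x₁ - x₂ b* + x₃ a, x₂ + x₃ b, x₃)` of `H³`; it is unitary
if `2 Re a + |b|² = 0` (a Heisenberg translation) -/
noncomputable def T (a b : Q) : Equiv.Perm V where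
  toFun x := (x.1 - x.2.1 * star b + x.2.2 * a, x.2.1 + x.2.2 * b, x.2.2)
  invFun x := (x.1 + x.2.1 * star b - x.2.2 * (a + b * star b), x.2.1 - x.2.2 * b, x.2.2)
  left_inv x := by
    refine Prod.ext ?_ (Prod.ext ?_ rfl)
    · simp only [add_mul, mul_add, mul_assoc]
      abel
    · simp
  right_inv x := by
    refine Prod.ext ?_ (Prod.ext ?_ rfl)
    · simp only [sub_mul, mul_add, mul_assoc]
      abel
    · simp

/-- the quaternion units `1, i, j, k` -/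
def qu : Fin 4 → Q := ![⟨1, 0, 0, 0⟩, ⟨0, 1, 0, 0⟩, ⟨0, 0, 1, 0⟩, ⟨0, 0, 0, 1⟩]

/-- derivative in the constant direction `(e, 0)` -/
noncomputable def ZZ (e : Q) (f : Pt → ℂ) (p : Pt) : ℂ := fderiv ℝ f p (e, 0)

/-- derivative along the horizontal field `(-e ζ*, e)` -/
noncomputable def XX (e : Q) (f : Pt → ℂ) (p : Pt) : ℂ := fderiv ℝ f p (-(e * star p.2), e)

/-- the Laplacian of the quaternionic hyperbolic plane, normalised so that the curvature is
between `-4` and `-1` (the powers `hgt ^ s` are eigenfunctions with eigenvalue `4 s (s - 5)`) -/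
noncomputable def lap (f : Pt → ℂ) (p : Pt) : ℂ :=
  (hgt p : ℂ) ^ 2 * ∑ r : Fin 4, ZZ (qu r) (ZZ (qu r) f) p
    + 8 * (hgt p : ℂ) * ZZ 1 f p
    + (hgt p : ℂ) * ∑ r : Fin 4, XX (qu r) (XX (qu r) f) p

/-- a point of the horosphere of height `u`, in coordinates `x ∈ [0,1]⁷`: the cell of the group of
Heisenberg translations `T a b`, `a, b ∈ O` -/
noncomputable def cellpt (x : (Fin 4 → ℝ) × (Fin 3 → ℝ)) (u : ℝ) : Pt :=
  let ζ : Q := ⟨x.1 0 / 2, x.1 0 / 2 + x.1 1, x.1 0 / 2 + x.1 2, x.1 0 / 2 + x.1 3⟩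
  (⟨-(u + ‖ζ‖ ^ 2) / 2, x.2 0, x.2 1, x.2 2⟩, ζ)

end Pool.Agent.Helper19.QcP
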