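import Pool.Agent.Helper19.QcP.Defs
import Pool.Agent.Helper19.Qc.Lat
import Pool.Agent.Helper19.Qh.Stmts

set_option autoImplicit false

/-!
# Translation of the main theorem to the elementary formulation
-/

namespace Pool.Agent.Helper19.QcP

open MeasureTheory
open Pool.Agent.Helper19

/-- the coordinates of vectors -/
noncomputable def eL : Qh.V 1 ≃ V where
  toFun x := (x.1, x.2.1 0, x.2.2)
  invFun y := (y.1, Qc.e1 y.2.1, y.2.2)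
  left_inv _ := Prod.ext rfl (Prod.ext (Qc.e1_eta _) rfl)
  right_inv _ := rfl

theorem eL_apply (x : Qh.V 1) : eL x = (x.1, x.2.1 0, x.2.2) := rfl

theorem herm_eL (x y : Qh.V 1) : herm (eL x) (eL y) = Qh.herm x y := by
  unfold herm Qh.herm
  rw [Qc.hin1]
  rfl

/-- linear automorphisms as permutations -/
noncomputable def ph : (Qh.V 1 ≃ₗ[Qh.Q] Qh.V 1) →* Equiv.Perm V where
  toFun g := (eL.symm.trans g.toEquiv).trans eL
  map_one' := by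
    ext1 x
    exact eL.apply_symm_apply x
  map_mul' g h := by
    ext1 x
    show eL (g (h (eL.symm x))) = eL (g (eL.symm (eL (h (eL.symm x)))))
    rw [eL.symm_apply_apply]

theorem ph_apply (g : Qh.V 1 ≃ₗ[Qh.Q] Qh.V 1) (x : Qh.V 1) : ph g (eL x) = eL (g x) := by
  show eL (g (eL.symm (eL x))) = eL (g x)
  rw [eL.symm_apply_apply]

theorem mem_eL (x : Qh.V 1) : eL x ∈ Hur ×ˢ Hur ×ˢ Hur ↔ x ∈ Qc.MO := Iff.rfl

theorem ph_mem {g : Qh.V 1 ≃ₗ[Qh.Q] Qh.V 1} (hg : g ∈ Qh.Gam Qc.MO) : ph g ∈ UO := by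
  obtain ⟨h1, h2⟩ := hg
  refine ⟨fun x y => ?_, fun x => ?_⟩
  · obtain ⟨x, rfl⟩ := eL.surjective x
    obtain ⟨y, rfl⟩ := eL.surjective y
    rw [ph_apply, ph_apply, herm_eL, herm_eL, h1]
  · obtain ⟨x, rfl⟩ := eL.surjective x
    rw [ph_apply, mem_eL, mem_eL, h2]

/-- a bijection preserving the form is linear -/
theorem linear_of_herm {g : Qh.V 1 ≃ Qh.V 1}
    (hg : ∀ x y, Qh.herm (g x) (g y) = Qh.herm x y) :
    (∀ x y, g (x + y) = g x + g y) ∧ ∀ (c : Qh.Q) x, g (c • x) = c • g x := by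
  have nd : ∀ x : Qh.V 1, (∀ y, Qh.herm x y = 0) → x = 0 := by
    intro x hx
    have h1 := hx (1, 0, 0)
    have h2 := hx (0, 0, 1)
    have h3 := hx (0, Qc.e1 1, 0)
    unfold Qh.herm at h1 h2 h3
    rw [Qc.hin1] at h1 h2 h3
    have z1 : ((0 : Qh.E 1)) 0 = (0 : Qh.Q) := rfl
    simp only [z1, Qc.e1_apply, star_zero, star_one, mul_zero, mul_one, zero_add,
      add_zero] at h1 h2 h3
    refine Prod.ext ?_ (Prod.ext ?_ ?_)
    · exact h2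
    · show x.2.1 = 0
      rw [← Qc.e1_eta x.2.1, h3]
      ext1 i
      rfl
    · exact h1
  constructor
  · intro x y
    have h : g (x + y) - (g x + g y) = 0 := by
      apply nd
      intro z
      obtain ⟨z, rfl⟩ := g.surjective z
      rw [Qh.herm_sub_left, Qh.herm_add_left, hg, hg, hg, Qh.herm_add_left]
      abel
    rwa [sub_eq_zero] at h
  · intro c x
    have h : g (c • x) - (c • g x) = 0 := by
      apply nd
      intro z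
      obtain ⟨z, rfl⟩ := g.surjective z
      rw [Qh.herm_sub_left, Qh.herm_smul_left, hg, hg, Qh.herm_smul_left]
      abel
    rwa [sub_eq_zero] at h

theorem exists_ph {g : Equiv.Perm V} (hg : g ∈ UO) : ∃ g' ∈ Qh.Gam Qc.MO, ph g' = g := by
  obtain ⟨h1, h2⟩ := hg
  let k : Qh.V 1 ≃ Qh.V 1 := (eL.trans g).trans eL.symm
  have hk : ∀ x, eL (k x) = g (eL x) := fun x => eL.apply_symm_apply _
  have hkf : ∀ x y, Qh.herm (k x) (k y) = Qh.herm x y := by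
    intro x y
    rw [← herm_eL, hk, hk, h1, herm_eL]
  obtain ⟨ha, hs⟩ := linear_of_herm hkf
  let K : Qh.V 1 ≃ₗ[Qh.Q] Qh.V 1 :=
    { toFun := k
      map_add' := ha
      map_smul' := hs
      invFun := k.symm
      left_inv := k.left_inv
      right_inv := k.right_inv }
  have hK : ∀ x, K x = k x := fun x => rfl
  refine ⟨K, ⟨fun x y => ?_, fun x => ?_⟩, ?_⟩
  · rw [hK, hK, hkf]
  · rw [hK, ← mem_eL, hk, h2, mem_eL]
  · ext1 x
    obtain ⟨x, rfl⟩ := eL.surjective x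
    rw [ph_apply, hK, hk]

theorem map_Gam : (Qh.Gam Qc.MO).map ph = UO := by
  ext g
  rw [Subgroup.mem_map]
  constructor
  · rintro ⟨g', hg', rfl⟩
    exact ph_mem hg'
  · exact exists_ph

/-- the coordinates of points -/
noncomputable def L : Qh.Pt 1 ≃L[ℝ] Pt where
  toFun p := (p.1, p.2 0)
  map_add' _ _ := rfl
  map_smul' _ _ := rfl
  invFun p := (p.1, Qc.e1 p.2)
  left_inv p := Prod.ext rfl (Qc.e1_eta _)
  right_inv _ := rfl
  continuous_toFun := by fun_prop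
  continuous_invFun := by
    refine continuous_fst.prodMk ?_
    exact (PiLp.continuous_toLp 2 _).comp (continuous_pi fun _ => continuous_snd)

theorem L_apply (p : Qh.Pt 1) : L p = (p.1, p.2 0) := rfl

theorem hgt_L (p : Qh.Pt 1) : hgt (L p) = Qh.hgt p := by
  rw [L_apply]
  unfold hgt Qh.hgt
  rw [Qc.norm_E1]

theorem mem_SD_L (p : Qh.Pt 1) : L p ∈ SD ↔ p ∈ Qh.SD 1 := by
  show 0 < hgt (L p) ↔ 0 < Qh.hgt p
  rw [hgt_L]

theorem act_ph (g : Qh.V 1 ≃ₗ[Qh.Q] Qh.V 1) (p : Qh.Pt 1) :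
    act (ph g) (L p) = L (Qh.act g p) := by
  have e : ph g ((L p).1, (L p).2, 1) = eL (g (Qh.vec p)) := ph_apply g (Qh.vec p)
  unfold act
  rw [e]
  rfl

theorem T_ph (a : Qh.Q) (b : Qh.E 1) : ph (Qh.T a b) = T a (b 0) := by
  ext1 x
  obtain ⟨x, rfl⟩ := eL.surjective x
  rw [ph_apply, Qh.T_apply, Qc.hin1]
  rfl

theorem fd_L (e : Qh.Pt 1) (f : Pt → ℂ) (p : Qh.Pt 1) :
    fderiv ℝ (fun q => f (L q)) p e = fderiv ℝ f (L p) (L e) := by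
  have h := L.comp_right_fderiv (f := f) (x := p)
  have h2 : fderiv ℝ (fun q => f (L q)) p =
    (fderiv ℝ f (L p)).comp ((L : Qh.Pt 1 ≃L[ℝ] Pt) : Qh.Pt 1 →L[ℝ] Pt) := h
  rw [h2]
  rfl

theorem pd_L (e : Qh.Q) (f : Pt → ℂ) (p : Qh.Pt 1) :
    Qh.pd (e, 0) (fun q => f (L q)) p = ZZ e f (L p) := fd_L (e, 0) f p

theorem XX_L (e : Qh.Q) (f : Pt → ℂ) (p : Qh.Pt 1) :
    Qh.XX (Qh.ek 0 e) (fun q => f (L q)) p = XX e f (L p) := by
  unfold Qh.XX XX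
  rw [fd_L, Qc.hin1]
  have h0 : (Qh.ek (0 : Fin 1) e : Qh.E 1) 0 = e := by
    unfold Qh.ek
    rw [PiLp.single_apply, if_pos rfl]
  rw [L_apply]
  simp only [h0]
  rfl

theorem lap_L (f : Pt → ℂ) (p : Qh.Pt 1) :
    Qh.lap (fun q => f (L q)) p = lap f (L p) := by
  unfold Qh.lap lap
  have h2 : ∀ (e : Qh.Q), Qh.pd (e, 0) (Qh.pd (e, 0) (fun q => f (L q))) p =
      ZZ e (ZZ e f) (L p) := by
    intro e
    have : Qh.pd (e, 0) (fun q => f (L q)) = fun q => (ZZ e f) (L q) := funext fun q => pd_L e f q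
    rw [this, pd_L]
  have h3 : ∀ e : Qh.Q, Qh.XX (Qh.ek 0 e) (Qh.XX (Qh.ek 0 e) (fun q => f (L q))) p =
      XX e (XX e f) (L p) := by
    intro e
    have : Qh.XX (Qh.ek 0 e) (fun q => f (L q)) = fun q => (XX e f) (L q) :=
      funext fun q => XX_L e f q
    rw [this, XX_L]
  rw [Fin.sum_univ_one]
  simp only [h2, h3, pd_L, hgt_L]
  have e8 : (4 * ((1 : ℕ) : ℂ) + 4) = 8 := by norm_num
  rw [e8]
  rfl

theorem cellpt_L (x : (Fin (4 * 1) → ℝ) × (Fin 3 → ℝ)) (u : ℝ) :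
    L (Qh.cellpt Qc.betO Qc.gamO x u) = cellpt x u := by
  obtain ⟨z, hz⟩ : ∃ z : Qh.Q, z = ⟨x.1 0 / 2, x.1 0 / 2 + x.1 1, x.1 0 / 2 + x.1 2,
    x.1 0 / 2 + x.1 3⟩ := ⟨_, rfl⟩
  obtain ⟨w, hw⟩ : ∃ w : Qh.Q, w = ⟨0, x.2 0, x.2 1, x.2 2⟩ := ⟨_, rfl⟩
  have hb : ∑ i, x.1 i • Qc.betO i = Qc.e1 z := by rw [hz]; exact Qc.betO_sum _
  have hg : ∑ i, x.2 i • Qc.gamO i = w := by rw [hw]; exact Qc.gamO_sum _
  have hc : cellpt x u = (⟨-(u + ‖z‖ ^ 2) / 2, x.2 0, x.2 1, x.2 2⟩, z) := by rw [hz]; rfl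
  have hq : Qh.cellpt Qc.betO Qc.gamO x u =
      (((-(u + ‖z‖ ^ 2) / 2 : ℝ) : Qh.Q) + w, Qc.e1 z) := by
    unfold Qh.cellpt
    rw [hb, hg, Qc.e1_norm]
  rw [hq, hc, L_apply]
  refine Prod.ext ?_ rfl
  apply Quaternion.ext
  · rw [Quaternion.re_add, Quaternion.re_coe, hw]
    exact add_zero _
  · rw [Quaternion.imI_add, Quaternion.imI_coe, zero_add, hw]
  · rw [Quaternion.imJ_add, Quaternion.imJ_coe, zero_add, hw]
  · rw [Quaternion.imK_add, Quaternion.imK_coe, zero_add, hw]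

/-- the main theorem in coordinates -/
theorem main_O (hMAIN : Qh.ST_MAIN) {ψ : ℝ → ℝ} {Mx κ : ℝ} (hκ : 0 ≤ κ)
    (hW : Qh.Wts Qc.MO 2 1 ψ Mx κ)
    (Δ : Subgroup (Equiv.Perm V)) (hfi : Δ.relIndex UO ≠ 0)
    (hwid : ∀ γ ∈ UO, ∀ a ∈ Hur, ∀ b ∈ Hur, 2 * a.re + ‖b‖ ^ 2 = 0 → γ * T a b * γ⁻¹ ∈ Δ)
    (f : Pt → ℂ) (hf : ContDiffOn ℝ 2 f SD)
    (hinv : ∀ γ ∈ Δ, ∀ p ∈ SD, f (act γ p) = f p)
    (hbdd : ∃ B : ℝ, ∀ p ∈ SD, ‖f p‖ ≤ B)
    (lam : ℂ) (heig : ∀ p ∈ SD, lap f p = -lam * f p)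
    (hcusp : ∀ γ ∈ UO, ∀ r : ℝ, 0 < r →
      ∫ x in Set.Icc (0 : (Fin 4 → ℝ) × (Fin 3 → ℝ)) 1, f (act γ (cellpt x r)) = 0)
    (hne : ∃ p ∈ SD, f p ≠ 0) : ∃ l : ℝ, κ ≤ l ∧ lam = l := by
  have hfi' : (Δ.comap ph).relIndex (Qh.Gam Qc.MO) ≠ 0 := by
    rw [Subgroup.relIndex_comap, map_Gam]
    exact hfi
  have hf' : ContDiffOn ℝ 2 (fun q : Qh.Pt 1 => f (L q)) (Qh.SD 1) :=
    hf.comp L.contDiff.contDiffOn (fun p hp => (mem_SD_L p).2 hp)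
  refine hMAIN 1 Qc.MO Qc.lat_MO Qc.NO Qc.betO Qc.gamO 2 1 Qc.cusp_MO Qc.dual_MO Qc.cent_MO
    zero_le_two zero_le_one (fun a b h => Qc.T_MO h) 1 (1 / 2) (by norm_num) Qc.cov_MO ψ Mx κ hκ
    hW (Δ.comap ph) hfi' (fun q => f (L q)) hf' ?_ ?_ lam ?_ ?_ ?_ ?_
  · intro γ hγ p hp
    show f (L (Qh.act γ p)) = f (L p)
    rw [← act_ph]
    exact hinv _ hγ _ ((mem_SD_L p).2 hp)
  · obtain ⟨B, hB⟩ := hbdd
    exact ⟨B, fun p hp => hB _ ((mem_SD_L p).2 hp)⟩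
  · intro p hp
    rw [lap_L]
    exact heig _ ((mem_SD_L p).2 hp)
  · intro γ hγ a b hab
    rw [Subgroup.mem_comap, map_mul, map_mul, map_inv, T_ph]
    refine hwid _ (ph_mem hγ) a hab.1 _ hab.2.1 ?_
    rw [← Qc.norm_E1]
    exact hab.2.2
  · intro γ hγ r hr
    rw [← hcusp _ (ph_mem hγ) r hr]
    congr 1
    funext x
    show f (L (Qh.act γ (Qh.cellpt Qc.betO Qc.gamO x r))) = _
    rw [← act_ph, cellpt_L]
  · obtain ⟨p, hp, hfp⟩ := hne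
    refine ⟨L.symm p, (mem_SD_L _).1 (by rwa [L.apply_symm_apply]), ?_⟩
    show f (L (L.symm p)) ≠ 0
    rw [L.apply_symm_apply]
    exact hfp

end Pool.Agent.Helper19.QcP
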